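import Pool.Agent.KS6_18.ITM.Final

/-!
# MP_d0d08e_co: the optimal clique-width bound for every excluded induced topological minor
-/

set_option autoImplicit false

namespace Pool.Agent.Results.MP_d0d08e_co.OptimalBounds

open Pool.Agent.H175R2 Pool.Agent.W124.ITM Pool.Agent.KS6_18.ITM

/-- For a finite graph `H` and a number `c`: every finite graph `G` that does not contain `H` as an
induced topological minor has clique-width at most `c` if and only if
* `H` is an induced subgraph of `K₁` (any `c`), or
* `1 ≤ c` and `H` is an induced subgraph of `K₂`, or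
* `2 ≤ c` and `H` is an induced subgraph of the path `P₄`, or
* `3 ≤ c` and `H` is an induced subgraph of the triangle `K₃`, or
* `4 ≤ c` and `H` is an induced subgraph of the paw or of the diamond. -/
theorem result (W : Type) [Finite W] (H : SimpleGraph W) (c : ℕ) :
    (∀ (V : Type) [Finite V] (G : SimpleGraph V), ¬ IsITM H G → cliqueWidth G ≤ c) ↔
      H.IsIndContained (⊤ : SimpleGraph (Fin 1)) ∨
      (1 ≤ c ∧ H.IsIndContained (⊤ : SimpleGraph (Fin 2))) ∨
      (2 ≤ c ∧ H.IsIndContained P4) ∨
      (3 ≤ c ∧ H.IsIndContained (⊤ : SimpleGraph (Fin 3))) ∨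
      (4 ≤ c ∧ (H.IsIndContained paw ∨ H.IsIndContained diamond)) :=
  optimal H c

end Pool.Agent.Results.MP_d0d08e_co.OptimalBounds
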